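import Pool.Agent.H7.KR.Stmts

/-! Row COV of the board kr. -/

set_option autoImplicit false

open Finset

namespace Pool.KR

open Pool.Agent.H23.KT Pool.Agent.H46.KW Pool.KQ

theorem cov (h1 : YSMStmt) : COVStmt := by
  classical
  intro V _ _ G p a v I U hI
  -- a clique of the neighbourhood gives a set with p + 4 vertices
  have hcard : ∀ L ∈ clq G (nb G univ v) (p + 3), (insert v L).card = p + 4 := by
    intro L hL
    obtain ⟨hL1, hL2, -⟩ := (mem_clq G).1 hL
    have hv : v ∉ L := fun h => by
      have := (mem_nb G).1 (hL1 h)
      exact G.loopless.irrefl v this.2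
    rw [card_insert_of_notMem hv, hL2]
  have hcard2 : ∀ u ∈ I, ∀ S ∈ clq G (co G v u \ U) (p + 2),
      (insert v (insert u S)).card = p + 4 := by
    intro u hu S hS
    obtain ⟨hS1, hS2, -⟩ := (mem_clq G).1 hS
    have huS : u ∉ S := fun h => by
      have h2 := (mem_sdiff.1 (hS1 h)).1
      unfold co at h2
      exact G.loopless.irrefl u ((mem_nb G).1 h2).2
    have hvu : v ≠ u := fun h => by
      have h2 := (mem_nb G).1 (hI hu)
      exact G.loopless.irrefl v (h ▸ h2.2)
    have hvS : v ∉ S := fun h => by
      have h2 := (mem_sdiff.1 (hS1 h)).1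
      unfold co at h2
      exact G.loopless.irrefl v ((mem_nb G).1 ((mem_nb G).1 h2).1).2
    have hv : v ∉ insert u S := by
      rw [mem_insert]
      rintro (h | h)
      · exact hvu h
      · exact hvS h
    rw [card_insert_of_notMem hv, card_insert_of_notMem huS, hS2]
  set C := clq G (nb G univ v) (p + 3) with hC
  have hnn : ∀ L ∈ C, (0 : ℝ) ≤ (a : ℝ) + yy G p a (insert v L) v := fun L hL => by
    have := (h1 G p a (insert v L) (hcard L hL)).1 v
    positivity
  have hub : ∀ L ∈ C, (a : ℝ) + yy G p a (insert v L) v ≤ (a : ℝ) + p + 2 := fun L hL => by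
    have := (h1 G p a (insert v L) (hcard L hL)).2.2 v (mem_insert_self _ _)
    linarith
  unfold LS
  rw [← sum_filter_add_sum_filter_not C (fun L => Disjoint L U ∧ ¬ Disjoint L I)]
  refine add_le_add ?_ ?_
  · -- the cliques which are disjoint from U and meet I
    calc ∑ L ∈ C.filter (fun L => Disjoint L U ∧ ¬ Disjoint L I),
          ((a : ℝ) + yy G p a (insert v L) v)
        ≤ ∑ L ∈ C.filter (fun L => Disjoint L U ∧ ¬ Disjoint L I),
            ∑ u ∈ I.filter (fun u => u ∈ L), ((a : ℝ) + yy G p a (insert v L) v) := by
          refine sum_le_sum fun L hL => ?_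
          obtain ⟨hL1, hL2, hL3⟩ := mem_filter.1 hL
          obtain ⟨u, hu1, hu2⟩ := not_disjoint_iff.1 hL3
          rw [sum_const, nsmul_eq_mul]
          have hc : (1 : ℝ) ≤ ((I.filter (fun u => u ∈ L)).card : ℝ) := by
            exact_mod_cast card_pos.2 ⟨u, mem_filter.2 ⟨hu2, hu1⟩⟩
          have := hnn L hL1
          nlinarith
      _ = ∑ u ∈ I, ∑ L ∈ (C.filter (fun L => Disjoint L U ∧ ¬ Disjoint L I)).filter
            (fun L => u ∈ L), ((a : ℝ) + yy G p a (insert v L) v) := by
          refine sum_comm' fun L u => ?_
          simp only [mem_filter]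
          tauto
      _ ≤ ∑ u ∈ I, ES G p a v u (co G v u \ U) := by
          refine sum_le_sum fun u hu => ?_
          unfold ES
          have hinj : Set.InjOn (fun L : Finset V => L.erase u)
              (((C.filter (fun L => Disjoint L U ∧ ¬ Disjoint L I)).filter
                (fun L => u ∈ L) : Finset (Finset V)) : Set (Finset V)) := by
            intro L hL L' hL' h
            have h2 := (mem_filter.1 (mem_coe.1 hL)).2
            have h3 := (mem_filter.1 (mem_coe.1 hL')).2
            have h4 : L.erase u = L'.erase u := h
            rw [← insert_erase h2, ← insert_erase h3, h4]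
          calc ∑ L ∈ (C.filter (fun L => Disjoint L U ∧ ¬ Disjoint L I)).filter
                (fun L => u ∈ L), ((a : ℝ) + yy G p a (insert v L) v)
              = ∑ L ∈ (C.filter (fun L => Disjoint L U ∧ ¬ Disjoint L I)).filter
                (fun L => u ∈ L),
                ((a : ℝ) + yy G p a (insert v (insert u (L.erase u))) v) := by
                refine sum_congr rfl fun L hL => ?_
                rw [insert_erase (mem_filter.1 hL).2]
            _ = ∑ S ∈ ((C.filter (fun L => Disjoint L U ∧ ¬ Disjoint L I)).filter
                (fun L => u ∈ L)).image (fun L : Finset V => L.erase u),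
                ((a : ℝ) + yy G p a (insert v (insert u S)) v) :=
                (sum_image (f := fun S : Finset V =>
                  ((a : ℝ) + yy G p a (insert v (insert u S)) v)) hinj).symm
            _ ≤ ∑ S ∈ clq G (co G v u \ U) (p + 2),
                ((a : ℝ) + yy G p a (insert v (insert u S)) v) := by
                refine sum_le_sum_of_subset_of_nonneg ?_ ?_
                · intro S hS
                  obtain ⟨L, hL, rfl⟩ := mem_image.1 hS
                  obtain ⟨hL0, huL⟩ := mem_filter.1 hL
                  obtain ⟨hLC, hLU, -⟩ := mem_filter.1 hL0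
                  obtain ⟨hL1, hL2, hL3⟩ := (mem_clq G).1 hLC
                  refine (mem_clq G).2 ⟨?_, ?_, ?_⟩
                  · intro x hx
                    obtain ⟨hxu, hxL⟩ := mem_erase.1 hx
                    refine mem_sdiff.2 ⟨?_, fun hxU => (disjoint_left.1 hLU) hxL hxU⟩
                    unfold co
                    exact (mem_nb G).2 ⟨hL1 hxL,
                      hL3 (mem_coe.2 huL) (mem_coe.2 hxL) (Ne.symm hxu)⟩
                  · rw [card_erase_of_mem huL, hL2]
                    rfl
                  · exact hL3.subset (coe_subset.2 (erase_subset _ _))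
                · intro S hS _
                  have := (h1 G p a _ (hcard2 u hu S hS)).1 v
                  positivity
  · calc ∑ L ∈ C.filter (fun L => ¬ (Disjoint L U ∧ ¬ Disjoint L I)),
          ((a : ℝ) + yy G p a (insert v L) v)
        ≤ ∑ L ∈ C.filter (fun L => ¬ (Disjoint L U ∧ ¬ Disjoint L I)), ((a : ℝ) + p + 2) :=
          sum_le_sum fun L hL => hub L (mem_filter.1 hL).1
      _ = ((a : ℝ) + p + 2) * ((C.filter
          (fun L => ¬ (Disjoint L U ∧ ¬ Disjoint L I))).card : ℝ) := by
          rw [sum_const, nsmul_eq_mul, mul_comm]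

end Pool.KR
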